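import Mathlib

/-!
# Independent sets in graphs without induced 4-cycles, 3-SAT and machine time (MP_be2f05_lc)

Squad C4F: definitions used in the final statement.
-/

set_option autoImplicit false

namespace Pool.Agent.C4F

open Turing

/-- The machine `M`, started with the word `w`, halts within `t` steps with the word `v`. -/
def Runs {Γ Δ : Type} (M : TM2ComputableAux Γ Δ) (w : List Γ) (v : List Δ) (t : ℕ) : Prop :=
  Nonempty (TM2OutputsInTime M.tm (w.map M.inputAlphabet.invFun)
    (some (v.map M.outputAlphabet.invFun)) t)

open Classical in
/-- The decision problem with instances `α` (written as words by `enc`) and yes-instances `L` is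
decided by a deterministic multi-stack Turing machine (`TM2` of Mathlib) which on every instance `a`
halts within `T a` steps. -/
def DecidesIn {α Γ : Type} (enc : α → List Γ) (L : α → Prop) (T : α → ℝ) : Prop :=
  ∃ M : TM2ComputableAux Γ Bool, ∀ a : α, ∃ t : ℕ, (t : ℝ) ≤ T a ∧
    Runs M (enc a) [decide (L a)] t

/-- A graph on the vertices `0, …, N-1` without induced 4-cycle. -/
structure C4FreeGraph where
  /-- the number of vertices -/
  N : ℕ
  /-- the graph -/
  G : SimpleGraph (Fin N)
  /-- the 4-cycle is not an induced subgraph -/
  free : IsEmpty (SimpleGraph.cycleGraph 4 ↪g G)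

open Classical in
/-- The adjacency matrix (`N * N` bits, row by row). -/
noncomputable def encGraph (x : C4FreeGraph) : List Bool :=
  (List.finRange x.N).flatMap fun i => (List.finRange x.N).map fun j => decide (x.G.Adj i j)

/-- The graph has an independent set of `k` vertices. -/
def HasIndep (k : ℕ) (x : C4FreeGraph) : Prop :=
  ∃ s : Finset (Fin x.N), s.card = k ∧ x.G.IsIndepSet (s : Set (Fin x.N))

/-- A 3-CNF formula: `n` variables and a list of clauses of three literals; a literal is a variable
and a sign. -/
structure CNF3 where
  /-- the number of variables -/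
  n : ℕ
  /-- the clauses -/
  clauses : List (Fin 3 → Fin n × Bool)

/-- The formula is satisfiable. -/
def CNF3.Sat (φ : CNF3) : Prop :=
  ∃ σ : Fin φ.n → Bool, ∀ c ∈ φ.clauses, ∃ j, σ (c j).1 = (c j).2

/-- letters -/
inductive Lt
  | tick | pos | neg | bar
  deriving DecidableEq, Fintype

instance : Inhabited Lt := ⟨.tick⟩

/-- A literal is written as its sign (`pos` or `neg`) followed by the number of its variable in
unary. -/
def encLit {n : ℕ} (l : Fin n × Bool) : List Lt :=
  (if l.2 then Lt.pos else Lt.neg) :: List.replicate l.1 Lt.tick

/-- A formula is written as the number of its variables in unary, a bar, and its literals. -/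
def encCNF (φ : CNF3) : List Lt :=
  List.replicate φ.n Lt.tick ++ Lt.bar ::
    φ.clauses.flatMap fun c => encLit (c 0) ++ (encLit (c 1) ++ encLit (c 2))

end Pool.Agent.C4F
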