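import Pool.Agent.C4F.Defs

/-!
# The reduction from 3-SAT to independent sets in graphs without induced 4-cycles

Squad C4F. The interaction graph of the cliques is made of 5-cycles and two copies of the incidence
graph of the lines `y = a x + b` over the field with `q` elements.
-/

set_option autoImplicit false

namespace Pool.Agent.C4F

open Classical in
/-- number of `v < n` with `P v` -/
noncomputable def cn (P : ℕ → Prop) (n : ℕ) : ℕ := Nat.count P n

/-- Data of a formula with `m` clauses and the parameters `q`, `k`. The slots are the numbers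
`s < 3 * m`: the literal `l < 3` of the clause `c` is in slot `3 * c + l`; it has the variable
`vr s < n` and the sign `sg s`. -/
structure Dat where
  q : ℕ
  k : ℕ
  n : ℕ
  m : ℕ
  vr : ℕ → ℕ
  sg : ℕ → Bool

namespace Dat

variable (D : Dat)

/-- number of columns used by the groups of clauses (columns `0, …, h-1`), and by the relays
(columns `h, …, 2h-1`) -/
def h : ℕ := (D.q - 1) / 2

/-- number of groups, number of relays -/
def kp : ℕ := D.h * D.q

/-- number of bits of every vertex -/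
def W : ℕ := 3 * (D.m / D.kp + 1) + D.kp ^ 2

/-- satisfiable -/
def Sat : Prop := ∃ σ : ℕ → Bool, ∀ c < D.m, ∃ l < 3, σ (D.vr (3 * c + l)) = D.sg (3 * c + l)

/-- the group of a slot: clause `c` is in group `c % kp` -/
def grp (s : ℕ) : ℕ := (s / 3) % D.kp

/-- link: `t` is the next slot after `s` with the same variable -/
def Lk (s t : ℕ) : Prop :=
  s < t ∧ t < 3 * D.m ∧ D.vr s = D.vr t ∧ ∀ u, s < u → u < t → D.vr u ≠ D.vr s

/-- `s` is the source of a link from the group `p` to the group `p'` -/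
def Src (p p' s : ℕ) : Prop := ∃ t < 3 * D.m, D.Lk s t ∧ D.grp s = p ∧ D.grp t = p'

/-- the number of the link from `s` to `t` among the links with the same pair of groups -/
noncomputable def cnt (s t : ℕ) : ℕ := cn (D.Src (D.grp s) (D.grp t)) s

/-- the relay of the link from `s` to `t` -/
noncomputable def rt (s t : ℕ) : ℕ := D.cnt s t % D.kp

/-- the point `(x, y)` is on the line `(a, b)`, that is `y = a x + b` modulo `q` -/
def OnL (a b x y : ℕ) : Prop := y % D.q = (a * x + b) % D.q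

/-- the group `p`, that is the point `(p / q, p % q)`, is on the line `(a, b)` -/
def OnP (a b p : ℕ) : Prop := D.OnL a b (p / D.q) (p % D.q)

/-- the relay `r`, that is the point `(h + r / q, r % q)`, is on the line `(a, b)` -/
def OnR (a b r : ℕ) : Prop := D.OnL a b (D.h + r / D.q) (r % D.q)

/-- the variables of the group `p` -/
def VP (p v : ℕ) : Prop := ∃ s < 3 * D.m, D.grp s = p ∧ D.vr s = v

/-- the variables of the relay `r` -/
def VR (r v : ℕ) : Prop :=
  ∃ s < 3 * D.m, ∃ t < 3 * D.m, D.Lk s t ∧ D.rt s t = r ∧ D.vr s = v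

/-- the variables of the line `(a, b)` -/
def VL (a b v : ℕ) : Prop :=
  ∃ s < 3 * D.m, ∃ t < 3 * D.m, D.Lk s t ∧ D.vr s = v ∧ D.OnR a b (D.rt s t) ∧
    (D.OnP a b (D.grp s) ∨ D.OnP a b (D.grp t))

/-- kind of the clique `i < k`: `0, …, 4` five copies of a point, `5, …, 9` five copies of a line,
`≥ 10` dummy -/
def kc (i : ℕ) : ℕ := i / D.q ^ 2

/-- first coordinate of the point or line of the clique `i` -/
def ca (i : ℕ) : ℕ := i % D.q ^ 2 / D.q

/-- second coordinate of the point or line of the clique `i` -/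
def cb (i : ℕ) : ℕ := i % D.q

/-- the variables of the clique `i` -/
def VS (i v : ℕ) : Prop :=
  (D.kc i < 5 ∧ D.ca i < D.h ∧ D.VP (D.ca i * D.q + D.cb i) v) ∨
  (D.kc i < 5 ∧ D.h ≤ D.ca i ∧ D.ca i < 2 * D.h ∧ D.VR ((D.ca i - D.h) * D.q + D.cb i) v) ∨
  (5 ≤ D.kc i ∧ D.kc i < 10 ∧ D.VL (D.ca i) (D.cb i) v)

/-- the rank of the variable `v` among the variables of the clique `i` -/
noncomputable def rk (i v : ℕ) : ℕ := cn (D.VS i) v

/-- the bit number `t` of the vertex `x < 2 ^ W` of a clique -/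
def bt (x t : ℕ) : Bool := decide (t < D.W) && x.testBit (D.W - 1 - t)

/-! The next definitions are made for arbitrary bit functions `β` (`β = D.bt` in the reduction, a
look-up in the input word in the machine). -/

/-- on the common variables of the cliques `i` and `j`, the assignment of `x` is lexicographically
greater than the assignment of `y` -/
def Gt (β : ℕ → ℕ → Bool) (i x j y : ℕ) : Prop :=
  ∃ v < D.n, D.VS i v ∧ D.VS j v ∧ β x (D.rk i v) = true ∧ β y (D.rk j v) = false ∧
    ∀ u < v, D.VS i u → D.VS j u → β x (D.rk i u) = β y (D.rk j u)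

/-- the assignment `x` of the group `i` violates a clause of this group -/
def Bad (β : ℕ → ℕ → Bool) (i x : ℕ) : Prop :=
  D.kc i = 0 ∧ D.ca i < D.h ∧ ∃ c < D.m, c % D.kp = D.ca i * D.q + D.cb i ∧
    ∀ l < 3, β x (D.rk i (D.vr (3 * c + l))) ≠ D.sg (3 * c + l)

/-- `i → j` is an edge of one of the 5-cycles -/
def Cyc (i j : ℕ) : Prop :=
  i % D.q ^ 2 = j % D.q ^ 2 ∧ D.kc i < 10 ∧ D.kc j < 10 ∧ D.kc i / 5 = D.kc j / 5 ∧
    D.kc j % 5 = (D.kc i + 1) % 5

/-- `i` is the copy 0 of a point, `j` is the copy 0 of a line through it -/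
def Pl (i j : ℕ) : Prop := D.kc i = 0 ∧ D.kc j = 5 ∧ D.OnL (D.ca j) (D.cb j) (D.ca i) (D.cb i)

/-- `i` is the copy 2 of a line, `j` is the copy 2 of a point on it -/
def Mi (i j : ℕ) : Prop := D.kc i = 7 ∧ D.kc j = 2 ∧ D.OnL (D.ca i) (D.cb i) (D.ca j) (D.cb j)

/-- conflicts along the oriented edges of the interaction graph -/
def E (β : ℕ → ℕ → Bool) (i x j y : ℕ) : Prop :=
  (D.Cyc i j ∧ y < x) ∨ ((D.Pl i j ∨ D.Mi i j) ∧ D.Gt β i x j y)

/-- adjacency of the vertex `x` of the clique `i` and the vertex `y` of the clique `j` -/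
def adj (β : ℕ → ℕ → Bool) (i x j y : ℕ) : Prop :=
  ¬ (i = j ∧ x = y) ∧ (i = j ∨ D.Bad β i x ∨ D.Bad β j y ∨ D.E β i x j y ∨ D.E β j y i x)

theorem adj_symm (β : ℕ → ℕ → Bool) (i x j y : ℕ) (h : D.adj β i x j y) : D.adj β j y i x := by
  obtain ⟨h1, h2⟩ := h
  refine ⟨fun h => h1 ⟨h.1.symm, h.2.symm⟩, ?_⟩
  rcases h2 with h | h | h | h | h
  · exact Or.inl h.symm
  · exact Or.inr (Or.inr (Or.inl h))
  · exact Or.inr (Or.inl h)
  · exact Or.inr (Or.inr (Or.inr (Or.inr h)))
  · exact Or.inr (Or.inr (Or.inr (Or.inl h)))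

/-- The graph of the reduction: `k` cliques with `2 ^ W` vertices each. -/
def gr : SimpleGraph (Fin (D.k * 2 ^ D.W)) where
  Adj u v := D.adj D.bt (u / 2 ^ D.W) (u % 2 ^ D.W) (v / 2 ^ D.W) (v % 2 ^ D.W)
  symm := ⟨fun _ _ h => D.adj_symm _ _ _ _ _ h⟩
  loopless := ⟨fun _ h => h.1 ⟨rfl, rfl⟩⟩

/-- admissible parameters -/
structure Ok : Prop where
  prime : D.q.Prime
  three : 3 ≤ D.q
  hk : 10 * D.q ^ 2 ≤ D.k
  vlt : ∀ s < 3 * D.m, D.vr s < D.n

/-- adjacency in the interaction graph -/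
def Hr (i j : ℕ) : Prop :=
  D.Cyc i j ∨ D.Cyc j i ∨ D.Pl i j ∨ D.Pl j i ∨ D.Mi i j ∨ D.Mi j i

/-- a choice `f` of a vertex in each clique without conflicts -/
def Cons (f : ℕ → ℕ) : Prop :=
  (∀ i < D.k, f i < 2 ^ D.W ∧ ¬ D.Bad D.bt i (f i)) ∧
    ∀ i < D.k, ∀ j < D.k, ¬ D.E D.bt i (f i) j (f j)

end Dat

end Pool.Agent.C4F
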