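import Pool.Agent.C4F.Red
import Pool.Agent.Helper53_Chan.Cond

/-!
# Squad C4F, statements of the machine rows

`PGen r F` (Pool/Agent/Helper53_CookLevin/Gen.lean): the map `F` from `r` words to a word is given by
a polynomial-time generator; `Test r P` (Pool/Agent/Helper53_Chan/Cond.lean): the condition `P` on `r`
words can be tested by a generator. Read these two files and Helper53_CookLevin/Num.lean,
Helper81_LoadPoly/Lang.lean, Helper92_LCR/Poly.lean first: most of KIT is there.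
-/

set_option autoImplicit false

namespace Pool.Agent.C4F

open Pool.Agent.Helper53_CookLevin (PGen)
open Pool.Agent.Helper53_Chan (Test)
open Turing

/-! ## Numbers and conditions -/

/-- numerical functions of `r` words, computed in unary -/
def NumF (r : ℕ) (f : (Fin r → List Lt) → ℕ) : Prop :=
  PGen r (fun ρ => List.replicate (f ρ) Lt.tick)

/-- KIT. Closure properties. A bound variable `v < t ρ` is the length of the new word number `0`.
Hints: `cnt` by a loop over `t` with `Test.ite`, output one tick; `ex`: a loop with output (nonempty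
iff some `P v`) and `Test.not`; `div`: `a / b` is `0` if `b = 0`, otherwise
`cn (fun v => (v + 1) * b ≤ a) a`; `mod`: `a - b * (a / b)`; `sub` by `PGen.dropF`; `look`: loop over
the word `ρ j`, output a tick at the letter `c` if the length of the prefix is `t ρ`. -/
structure Kit : Prop where
  rename : ∀ (r r' : ℕ) (g : Fin r → Fin r') (f : (Fin r → List Lt) → ℕ), NumF r f →
    NumF r' (fun ρ => f (ρ ∘ g))
  trename : ∀ (r r' : ℕ) (g : Fin r → Fin r') (P : (Fin r → List Lt) → Prop), Test r P →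
    Test r' (fun ρ => P (ρ ∘ g))
  var : ∀ (r : ℕ) (j : Fin r), NumF r (fun ρ => (ρ j).length)
  cst : ∀ r c : ℕ, NumF r (fun _ => c)
  add : ∀ (r : ℕ) (f g : (Fin r → List Lt) → ℕ), NumF r f → NumF r g → NumF r (fun ρ => f ρ + g ρ)
  sub : ∀ (r : ℕ) (f g : (Fin r → List Lt) → ℕ), NumF r f → NumF r g → NumF r (fun ρ => f ρ - g ρ)
  mul : ∀ (r : ℕ) (f g : (Fin r → List Lt) → ℕ), NumF r f → NumF r g → NumF r (fun ρ => f ρ * g ρ)
  div : ∀ (r : ℕ) (f g : (Fin r → List Lt) → ℕ), NumF r f → NumF r g → NumF r (fun ρ => f ρ / g ρ)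
  mod : ∀ (r : ℕ) (f g : (Fin r → List Lt) → ℕ), NumF r f → NumF r g → NumF r (fun ρ => f ρ % g ρ)
  cnt : ∀ (r : ℕ) (t : (Fin r → List Lt) → ℕ) (P : ℕ → (Fin r → List Lt) → Prop), NumF r t →
    Test (r + 1) (fun ρ => P (ρ 0).length (fun i => ρ i.succ)) →
    NumF r (fun ρ => cn (fun v => P v ρ) (t ρ))
  tcst : ∀ (r : ℕ) (p : Prop), Test r (fun _ : Fin r → List Lt => p)
  lt : ∀ (r : ℕ) (f g : (Fin r → List Lt) → ℕ), NumF r f → NumF r g → Test r (fun ρ => f ρ < g ρ)
  le : ∀ (r : ℕ) (f g : (Fin r → List Lt) → ℕ), NumF r f → NumF r g → Test r (fun ρ => f ρ ≤ g ρ)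
  eq : ∀ (r : ℕ) (f g : (Fin r → List Lt) → ℕ), NumF r f → NumF r g → Test r (fun ρ => f ρ = g ρ)
  and : ∀ (r : ℕ) (P Q : (Fin r → List Lt) → Prop), Test r P → Test r Q →
    Test r (fun ρ => P ρ ∧ Q ρ)
  or : ∀ (r : ℕ) (P Q : (Fin r → List Lt) → Prop), Test r P → Test r Q →
    Test r (fun ρ => P ρ ∨ Q ρ)
  not : ∀ (r : ℕ) (P : (Fin r → List Lt) → Prop), Test r P → Test r (fun ρ => ¬ P ρ)
  ex : ∀ (r : ℕ) (t : (Fin r → List Lt) → ℕ) (P : ℕ → (Fin r → List Lt) → Prop), NumF r t →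
    Test (r + 1) (fun ρ => P (ρ 0).length (fun i => ρ i.succ)) → Test r (fun ρ => ∃ v < t ρ, P v ρ)
  all : ∀ (r : ℕ) (t : (Fin r → List Lt) → ℕ) (P : ℕ → (Fin r → List Lt) → Prop), NumF r t →
    Test (r + 1) (fun ρ => P (ρ 0).length (fun i => ρ i.succ)) → Test r (fun ρ => ∀ v < t ρ, P v ρ)
  look : ∀ (r : ℕ) (j : Fin r) (c : Lt) (t : (Fin r → List Lt) → ℕ), NumF r t →
    Test r (fun ρ => (ρ j)[t ρ]? = some c)
  loop : ∀ (r : ℕ) (t : (Fin r → List Lt) → ℕ) (F : ℕ → (Fin r → List Lt) → List Lt), NumF r t →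
    PGen (r + 1) (fun ρ => F (ρ 0).length (fun i => ρ i.succ)) →
    PGen r (fun ρ => (List.range (t ρ)).flatMap fun v => F v ρ)
  ncount : ∀ (r : ℕ) (j : Fin r) (c : Lt), NumF r (fun ρ => (ρ j).count c)

/-- SUB. Substitution of generators into a generator (`PGen.letw` and `PGen.rename`, induction on
`m`; or only for `m = 6` with six local definitions). -/
def SubStmt : Prop :=
  ∀ (m r : ℕ) (F : (Fin m → List Lt) → List Lt) (G : Fin m → (Fin r → List Lt) → List Lt),
    PGen m F → (∀ i, PGen r (G i)) → PGen r (fun ρ => F (fun i => G i ρ))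

/-! ## The formula and the list of bit strings as words -/

/-- The data read from six words: `1^q`, `1^k`, `1^n`, `1^m`, the table with `n` letters for every
slot (`tick` except for `pos` or `neg` at the variable of the slot), and the list of bit strings. -/
noncomputable def dat (w : Fin 6 → List Lt) : Dat where
  q := (w 0).length
  k := (w 1).length
  n := (w 2).length
  m := (w 3).length
  vr := fun s => cn (fun v => ∀ u < v + 1, (w 4)[s * (w 2).length + u]? = some Lt.tick)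
    (w 2).length
  sg := fun s => decide ((w 4)[s * (w 2).length + cn (fun v => ∀ u < v + 1,
    (w 4)[s * (w 2).length + u]? = some Lt.tick) (w 2).length]? = some Lt.pos)

/-- the bit number `t` of the string number `x`, by look-up in the list of bit strings -/
noncomputable def bw (w : Fin 6 → List Lt) (x t : ℕ) : Bool :=
  decide (t < (dat w).W) && decide ((w 5)[x * ((dat w).W + 1) + t]? = some Lt.pos)

/-- the six words with numbers `e 0, …, e 5` -/
def At {r : ℕ} (e : Fin 6 → Fin r) (ρ : Fin r → List Lt) : Fin 6 → List Lt := fun i => ρ (e i)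

/-- TNM. Numbers of the data. -/
def TnmStmt : Prop :=
  ∀ (r : ℕ) (e : Fin 6 → Fin r),
    NumF r (fun ρ => (dat (At e ρ)).q) ∧ NumF r (fun ρ => (dat (At e ρ)).k) ∧
    NumF r (fun ρ => (dat (At e ρ)).n) ∧ NumF r (fun ρ => (dat (At e ρ)).m) ∧
    NumF r (fun ρ => (dat (At e ρ)).h) ∧ NumF r (fun ρ => (dat (At e ρ)).kp) ∧
    NumF r (fun ρ => (dat (At e ρ)).W) ∧
    ∀ s : (Fin r → List Lt) → ℕ, NumF r s →
      NumF r (fun ρ => (dat (At e ρ)).vr (s ρ)) ∧ Test r (fun ρ => (dat (At e ρ)).sg (s ρ) = true) ∧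
      NumF r (fun ρ => (dat (At e ρ)).grp (s ρ)) ∧ NumF r (fun ρ => (dat (At e ρ)).kc (s ρ)) ∧
      NumF r (fun ρ => (dat (At e ρ)).ca (s ρ)) ∧ NumF r (fun ρ => (dat (At e ρ)).cb (s ρ))

/-- TLK. Links (KIT, TNM). Inside a bounded quantifier replace `e` by `fun i => (e i).succ` and the
numbers by their renamings. -/
def TlkStmt : Prop :=
  ∀ (r : ℕ) (e : Fin 6 → Fin r) (s t : (Fin r → List Lt) → ℕ), NumF r s → NumF r t →
    Test r (fun ρ => (dat (At e ρ)).Lk (s ρ) (t ρ))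

/-- TRT. Sources, numbers and relays of links (KIT, TNM, TLK). -/
def TrtStmt : Prop :=
  ∀ (r : ℕ) (e : Fin 6 → Fin r) (s t u : (Fin r → List Lt) → ℕ), NumF r s → NumF r t → NumF r u →
    Test r (fun ρ => (dat (At e ρ)).Src (s ρ) (t ρ) (u ρ)) ∧
    NumF r (fun ρ => (dat (At e ρ)).rt (s ρ) (t ρ))

/-- TON. Incidences (KIT, TNM). -/
def TonStmt : Prop :=
  ∀ (r : ℕ) (e : Fin 6 → Fin r) (a b x y : (Fin r → List Lt) → ℕ), NumF r a → NumF r b →
    NumF r x → NumF r y →
    Test r (fun ρ => (dat (At e ρ)).OnL (a ρ) (b ρ) (x ρ) (y ρ)) ∧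
    Test r (fun ρ => (dat (At e ρ)).OnP (a ρ) (b ρ) (x ρ)) ∧
    Test r (fun ρ => (dat (At e ρ)).OnR (a ρ) (b ρ) (x ρ))

/-- TVS. The variables of a clique, ranks (KIT, TNM, TLK, TRT, TON). -/
def TvsStmt : Prop :=
  ∀ (r : ℕ) (e : Fin 6 → Fin r) (i v : (Fin r → List Lt) → ℕ), NumF r i → NumF r v →
    Test r (fun ρ => (dat (At e ρ)).VS (i ρ) (v ρ)) ∧ NumF r (fun ρ => (dat (At e ρ)).rk (i ρ) (v ρ))

/-- TBW. Bits (KIT, TNM). -/
def TbwStmt : Prop :=
  ∀ (r : ℕ) (e : Fin 6 → Fin r) (x t : (Fin r → List Lt) → ℕ), NumF r x → NumF r t →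
    Test r (fun ρ => bw (At e ρ) (x ρ) (t ρ) = true)

/-- TGT. The comparison (KIT, TNM, TVS, TBW). Equality of two bits: both true or both not true. -/
def TgtStmt : Prop :=
  ∀ (r : ℕ) (e : Fin 6 → Fin r) (i x j y : (Fin r → List Lt) → ℕ), NumF r i → NumF r x →
    NumF r j → NumF r y →
    Test r (fun ρ => (dat (At e ρ)).Gt (bw (At e ρ)) (i ρ) (x ρ) (j ρ) (y ρ))

/-- TBD. Violated clauses (KIT, TNM, TVS, TBW). -/
def TbdStmt : Prop :=
  ∀ (r : ℕ) (e : Fin 6 → Fin r) (i x : (Fin r → List Lt) → ℕ), NumF r i → NumF r x →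
    Test r (fun ρ => (dat (At e ρ)).Bad (bw (At e ρ)) (i ρ) (x ρ))

/-- TAD. Adjacency (KIT, TNM, TON, TGT, TBD). -/
def TadStmt : Prop :=
  ∀ (r : ℕ) (e : Fin 6 → Fin r) (i x j y : (Fin r → List Lt) → ℕ), NumF r i → NumF r x →
    NumF r j → NumF r y →
    Test r (fun ρ => (dat (At e ρ)).adj (bw (At e ρ)) (i ρ) (x ρ) (j ρ) (y ρ))

open Classical in
/-- the adjacency matrix as a word over `pos`, `neg`; the number of bit strings is the number of bars
in the word number 5 -/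
noncomputable def mxw (w : Fin 6 → List Lt) : List Lt :=
  (List.range (w 1).length).flatMap fun i => (List.range ((w 5).count Lt.bar)).flatMap fun x =>
    (List.range (w 1).length).flatMap fun j => (List.range ((w 5).count Lt.bar)).flatMap fun y =>
      if (dat w).adj (bw w) i x j y then [Lt.pos] else [Lt.neg]

/-- MTX. The matrix is generated (KIT, TAD; four loops with `Kit.loop`, `Test.ite`). -/
def MtxStmt : Prop := PGen 6 (fun w : Fin 6 → List Lt => mxw w)

/-! ## The words of the stages -/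

/-- the list of the `2 ^ b` bit strings of length `b`, each followed by a bar -/
def en (b : ℕ) : List Lt :=
  (List.range (2 ^ b)).flatMap fun x =>
    ((List.range b).map fun t => if x.testBit (b - 1 - t) then Lt.pos else Lt.neg) ++ [Lt.bar]

/-- the five words, then `a` ticks, then the list of bit strings of length `b` -/
def zs (w : Fin 6 → List Lt) (a b : ℕ) : List Lt :=
  w 0 ++ Lt.bar :: (w 1 ++ Lt.bar :: (w 2 ++ Lt.bar :: (w 3 ++ Lt.bar :: (w 4 ++ Lt.bar ::
    (List.replicate a Lt.tick ++ Lt.bar :: en b)))))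

/-- the first five words have no bars -/
def NoBar (w : Fin 6 → List Lt) : Prop := ∀ i : Fin 6, i ≠ 5 → Lt.bar ∉ w i

/-- FLD. Splitting a word at its first bar. -/
def FldStmt : Prop :=
  ∃ G H : List Lt → List Lt, PGen 1 (fun ρ : Fin 1 → List Lt => G (ρ 0)) ∧
    PGen 1 (fun ρ : Fin 1 → List Lt => H (ρ 0)) ∧
    ∀ u v : List Lt, Lt.bar ∉ u → G (u ++ Lt.bar :: v) = u ∧ H (u ++ Lt.bar :: v) = v

/-- BGN. The generator of stage B (SUB, MTX, FLD): the word number 5 is `en b`. -/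
def BgnStmt : Prop :=
  ∃ F : List Lt → List Lt, PGen 1 (fun ρ : Fin 1 → List Lt => F (ρ 0)) ∧
    ∀ (w : Fin 6 → List Lt) (b : ℕ), NoBar w → w 5 = en b → F (zs w 0 b) = mxw w

/-- ENC. The word written by stage B is the adjacency matrix of the graph of the reduction:
`(en b).count bar = 2 ^ b`; for `x < 2 ^ W`, `t < W` the letter number `x (W+1) + t` of `en W` is
the bit `x.testBit (W-1-t)`, so `bw w x t = (dat w).bt x t` for all `t` and `x < 2 ^ W`, and `adj`
uses `β x`, `β y` only; the loops over `i < k`, `x < 2 ^ W` are the loop over `u = i 2 ^ W + x`. -/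
def EncStmt : Prop :=
  ∀ (w : Fin 6 → List Lt) (hf : IsEmpty (SimpleGraph.cycleGraph 4 ↪g (dat w).gr)),
    w 5 = en (dat w).W →
    (mxw w).map (fun c => decide (c = Lt.pos)) =
      encGraph ⟨(dat w).k * 2 ^ (dat w).W, (dat w).gr, hf⟩

/-- the table of a formula -/
def tab (φ : CNF3) : List Lt :=
  φ.clauses.flatMap fun c => (List.finRange 3).flatMap fun l => (List.range φ.n).map fun v =>
    if v = ((c l).1 : ℕ) then (if (c l).2 then Lt.pos else Lt.neg) else Lt.tick

/-- the number of bits for a formula with `m` clauses -/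
def wid (q m : ℕ) : ℕ := 3 * (m / ((q - 1) / 2 * q) + 1) + ((q - 1) / 2 * q) ^ 2

/-- the six words of a formula and the parameters `q`, `k` -/
def wd (q k : ℕ) (φ : CNF3) : Fin 6 → List Lt :=
  ![List.replicate q Lt.tick, List.replicate k Lt.tick, List.replicate φ.n Lt.tick,
    List.replicate φ.clauses.length Lt.tick, tab φ, en (wid q φ.clauses.length)]

/-- SAT. The data of the six words of a formula. The letters number `s n, …, s n + n - 1` of the table
are the row of the slot `s < 3 m`, so `vr s` is the variable and `sg s` the sign of this literal. -/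
def SatStmt : Prop :=
  ∀ (q k : ℕ) (φ : CNF3), NoBar (wd q k φ) ∧ (dat (wd q k φ)).q = q ∧ (dat (wd q k φ)).k = k ∧
    (dat (wd q k φ)).n = φ.n ∧ (dat (wd q k φ)).m = φ.clauses.length ∧
    (∀ s < 3 * φ.clauses.length, (dat (wd q k φ)).vr s < φ.n) ∧
    ((dat (wd q k φ)).Sat ↔ φ.Sat)

/-- A1. Stage A1 for constants `q`, `k`: the words before the first bar of the input (`n`); the table:
loop over the letters of the rest, at a sign letter write the row (the variable is the number of ticks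
up to the next sign letter or the end: see the loops with suffixes in
Helper81_LoadPoly/Lang.lean, `PGen.loopS`, `PGen.takeWhile`); `m` is the number of sign letters
divided by 3; the width by `Kit.div` etc. -/
def A1Stmt : Prop :=
  ∀ q k : ℕ, ∃ F : List Lt → List Lt, PGen 1 (fun ρ : Fin 1 → List Lt => F (ρ 0)) ∧
    ∀ φ : CNF3, F (encCNF φ) = zs (wd q k φ) (wid q φ.clauses.length) 0

/-- STP. One step of stage A2: remove a tick and double the list:
`en (b+1) = ins neg (en b) ++ ins pos (en b)` where `ins c` inserts the letter `c` before every bit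
string, i.e. at the beginning and after every bar except the last: for every letter `d` with prefix
`p` write `c d` if `p` is empty or ends with a bar, and `d` otherwise (`PGen.caseLast`). The parts of
the word are found with FLD; the test `T` is: the word number 5 (ticks) is not empty. -/
def StpStmt : Prop :=
  ∃ (F : List Lt → List Lt) (T : List Lt → Prop), PGen 1 (fun ρ : Fin 1 → List Lt => F (ρ 0)) ∧
    Test 1 (fun ρ : Fin 1 → List Lt => T (ρ 0)) ∧
    ∀ (w : Fin 6 → List Lt) (a b : ℕ), NoBar w → ¬ T (zs w 0 b) ∧ T (zs w (a + 1) b) ∧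
      F (zs w (a + 1) b) = zs w a (b + 1)

/-- ITR. Iteration of a generator as long as a test is true: a loop of the structured programs
(`Prog.loop`, the condition is in the register) around the program of `F` (see `PGen.good` and the
proof of `pgen_computable` in Helper53_CookLevin/Gen.lean). -/
def ItrStmt : Prop :=
  ∀ (F : List Lt → List Lt) (T : List Lt → Prop), PGen 1 (fun ρ : Fin 1 → List Lt => F (ρ 0)) →
    Test 1 (fun ρ : Fin 1 → List Lt => T (ρ 0)) →
    ∃ (M : TM2ComputableAux Lt Lt) (P : Polynomial ℕ), ∀ (z : ℕ → List Lt) (J S : ℕ),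
      (∀ j < J, T (z j) ∧ F (z j) = z (j + 1)) → ¬ T (z J) → (∀ j ≤ J, (z j).length ≤ S) →
      Runs M (z 0) (z J) ((J + 1) * P.eval S)

/-- A2. The doubling machine (STP, ITR): `|zs w (b-j) j| ≤ |zs w 0 b|` since `|en j| = (j+1) 2^j`. -/
def A2Stmt : Prop :=
  ∃ (M : TM2ComputableAux Lt Lt) (P : Polynomial ℕ), ∀ (w : Fin 6 → List Lt) (b : ℕ), NoBar w →
    Runs M (zs w b 0) (zs w 0 b) (P.eval (zs w 0 b).length)

/-- PGR. Generators as machines (`pgen_computable`). -/
def PgrStmt : Prop :=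
  ∀ F : List Lt → List Lt, PGen 1 (fun ρ : Fin 1 → List Lt => F (ρ 0)) →
    ∃ (M : TM2ComputableAux Lt Lt) (P : Polynomial ℕ), ∀ w, Runs M w (F w) (P.eval w.length)

/-- PGB. Generators followed by the letter map `c ↦ (c = pos)` (`pgen_computable`, the morphisms of
Helper32_Poly/Morphism.lean and `TM2ComputableInPolyTime.comp`). -/
def PgbStmt : Prop :=
  ∀ F : List Lt → List Lt, PGen 1 (fun ρ : Fin 1 → List Lt => F (ρ 0)) →
    ∃ (M : TM2ComputableAux Lt Bool) (P : Polynomial ℕ), ∀ w,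
      Runs M w ((F w).map fun c => decide (c = Lt.pos)) (P.eval w.length)

/-- COM. Composition of machines with explicit time: the proof of `TM2ComputableInPolyTime.comp` in
Helper32_Poly/Comp.lean with numbers instead of polynomials. -/
def ComStmt : Prop :=
  ∀ (Γ Δ Θ : Type) (M₁ : TM2ComputableAux Γ Δ) (M₂ : TM2ComputableAux Δ Θ),
    ∃ (M : TM2ComputableAux Γ Θ) (c : ℕ), ∀ (w : List Γ) (v : List Δ) (o : List Θ) (t₁ t₂ : ℕ),
      Runs M₁ w v t₁ → Runs M₂ v o t₂ → Runs M w o (c * (t₁ + t₂ + w.length + 1))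

/-! ## Choice of the parameters and estimates -/

/-- BRT. By Bertrand's postulate (`Nat.exists_prime_lt_and_le_two_mul`) with
`t = Nat.sqrt (k / 40)`: a prime `t < q ≤ 2 t`. -/
def BrtStmt : Prop :=
  ∀ K₀ : ℕ, ∃ k₀ : ℕ, ∀ k ≥ k₀, ∃ q : ℕ, q.Prime ∧ 3 ≤ q ∧ 10 * q ^ 2 ≤ k ∧
    K₀ ≤ (q - 1) / 2 * q ∧ k ≤ 120 * ((q - 1) / 2 * q)

/-- AN1. With `κ = (q-1)/2 * q` large the polynomial of degree `d` contributes
`2 ^ (d (3 m / κ) + const)` times a polynomial in `n`, `m`. -/
def An1Stmt : Prop :=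
  ∀ (P : Polynomial ℕ) (ε : ℝ), 0 < ε → ∃ K₀ : ℕ, ∀ q : ℕ, K₀ ≤ (q - 1) / 2 * q → ∀ k : ℕ,
    ∃ C : ℝ, 0 ≤ C ∧ ∀ n m : ℕ, ((P.eval (q + k + n + m + 3 * m * n + 7 +
      (wid q m + 1) * 2 ^ wid q m) : ℕ) : ℝ) ≤ C * 2 ^ (ε * ((n : ℝ) + m))

/-- AN2. `(k 2 ^ W + 1) ^ (ε k / 360) ≤ (k + 1) ^ (ε k / 360) 2 ^ (W ε k / 360)` and
`W k / 360 ≤ m + const` since `W ≤ 3 m / κ + 3 + κ²` and `k ≤ 120 κ`. -/
def An2Stmt : Prop :=
  ∀ ε : ℝ, 0 < ε → ∀ q k : ℕ, 0 < (q - 1) / 2 * q → k ≤ 120 * ((q - 1) / 2 * q) → ∀ C₀ : ℝ,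
    ∃ C : ℝ, 0 ≤ C ∧ ∀ m : ℕ,
      C₀ * (((k * 2 ^ wid q m : ℕ) : ℝ) + 1) ^ (ε / 360 * k) ≤ C * 2 ^ (ε * (m : ℝ))

/-- AN3. Polynomials are smaller than exponentials. -/
def An3Stmt : Prop :=
  ∀ (P : Polynomial ℕ) (ε : ℝ), 0 < ε → ∃ C : ℝ, 0 ≤ C ∧ ∀ n m : ℕ,
    ((P.eval (n + 1 + 3 * m * (n + 1)) : ℕ) : ℝ) ≤ C * 2 ^ (ε * ((n : ℝ) + m))

/-- The main theorem. -/
def MainStmt : Prop :=
  (∀ δ : ℝ, 0 < δ → ∀ k₀ : ℕ, ∃ k, k₀ ≤ k ∧ ∃ C : ℝ,
      DecidesIn encGraph (HasIndep k) (fun x => C * ((x.N : ℝ) + 1) ^ (δ * k))) →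
    ∀ ε : ℝ, 0 < ε → ∃ C : ℝ,
      DecidesIn encCNF CNF3.Sat (fun φ => C * 2 ^ (ε * ((φ.n : ℝ) + φ.clauses.length)))

end Pool.Agent.C4F
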