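import Pool.Agent.C4F.Red

/-!
# Squad C4F, statements of the combinatorial rows

`D.Ok` gives: `q` prime, `q ≥ 3`, `10 q² ≤ k`, `vr s < n` for `s < 3m`. Facts used everywhere:
`h = (q-1)/2 ≥ 1`, `2h ≤ q` (indeed `2h ≤ q - 1`), `kp = h q ≥ 3`, `2h² ≤ kp`.
An index `i` is determined by `kc i = i / q²` and `i % q²`, and `i % q²` by `ca i`, `cb i`.
-/

set_option autoImplicit false

namespace Pool.Agent.C4F

/-- CHN. `Gt` is the relation `u > w` for the lexicographic order of the bit strings
`u = (β x (rk i v))`, `w = (β y (rk j v))`, `v` in the common variables of `i` and `j`. A total order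
has: `u > w` and `u' > w'` imply `u > w'` or `u' > w` (otherwise `u ≤ w' < u' ≤ w < u`).
Direct proof: let `v` be the first difference for `(x,y)` and `v'` for `(x',y')`. Or: `Gt` iff
`val u > val w` for `val u = ∑ v < n, (if common v ∧ u v then 2^(n-1-v) else 0)`. -/
def ChnStmt : Prop :=
  ∀ (D : Dat) (β : ℕ → ℕ → Bool) (i x j y x' y' : ℕ), D.Gt β i x j y → D.Gt β i x' j y' →
    D.Gt β i x j y' ∨ D.Gt β i x' j y

/-- EQB. If neither assignment is lexicographically greater then they agree on the common variables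
(look at the least `v` where they differ). -/
def EqbStmt : Prop :=
  ∀ (D : Dat) (β : ℕ → ℕ → Bool) (i x j y : ℕ), ¬ D.Gt β i x j y → ¬ D.Gt β j y i x →
    ∀ v < D.n, D.VS i v → D.VS j v → β x (D.rk i v) = β y (D.rk j v)

/-- GIR. The interaction graph has no triangle and no 4-cycle. All indices in `Hr` have `kc < 10`.
The map `kc` sends edges to edges of the graph `T` on `0, …, 9` with the two 5-cycles `0 1 2 3 4`,
`5 6 7 8 9` and the edges `0 5`, `2 7`. `T` has no triangle and no 4-cycle with four different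
vertices, so in a closed walk `i j l p` we have `kc i = kc l` or `kc j = kc p`. If (say)
`kc i = kc l` and the edge `i j` is of type `Cyc` then `i % q² = j % q² = l % q²` and `i = l`
(for `Cyc` the difference of kinds is `±1`, so `j l` is then also of type `Cyc`); if both `j` and `p`
are joined to `i`, `l` by incidences then `i, l` are two points and `j, p` two lines (or conversely),
and two points are on at most one line: `y = a x + b`, `y' = a x' + b`, `y = a' x + b'`,
`y' = a' x' + b'` give `(a - a') (x - x') = 0` in `ZMod q`. -/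
def GirStmt : Prop :=
  ∀ D : Dat, D.Ok → (∀ i j l, D.Hr i j → D.Hr j l → D.Hr l i → False) ∧
    ∀ i j l p, D.Hr i j → D.Hr j l → D.Hr l p → D.Hr p i → i = l ∨ j = p

/-- GLU. Cliques glued along a graph without triangles and 4-cycles by nested bipartite graphs have no
induced 4-cycle, also with universal (bad) vertices added. Let `a b c d` be an induced 4-cycle. No
vertex of it is bad (a bad vertex is adjacent to all others, but `a ≠ c` are not adjacent). So
adjacent vertices have equal or `H`-adjacent indices, non-adjacent ones have different indices.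
Indices `α, β, γ, δ` with `α ≠ γ`, `β ≠ δ`. If `α = β` then `γ = δ` (else `α, γ, δ` is a triangle) and
`A` holds for `(b,c)` and `(a,d)`, both between `α` and `γ`, but not for `(a,c)`, `(b,d)`. Same for
the other sides. If all sides have different indices: 4-cycle of `H`. -/
def GluStmt : Prop :=
  ∀ (V I X : Type) (ι : V → I) (ξ : V → X) (H : I → I → Prop) (bad : I → X → Prop)
    (A : I → X → I → X → Prop) (G : SimpleGraph V),
    (∀ u v, G.Adj u v → ι u = ι v ∨ bad (ι u) (ξ u) ∨ bad (ι v) (ξ v) ∨
      A (ι u) (ξ u) (ι v) (ξ v)) →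
    (∀ u v, u ≠ v → (ι u = ι v ∨ bad (ι u) (ξ u) ∨ bad (ι v) (ξ v) ∨
      A (ι u) (ξ u) (ι v) (ξ v)) → G.Adj u v) →
    (∀ i x j y, A i x j y → H i j) →
    (∀ i x j y, A i x j y → A j y i x) →
    (∀ i x j y x' y', A i x j y → A i x' j y' → A i x j y' ∨ A i x' j y) →
    (∀ i j l, H i j → H j l → H l i → False) →
    (∀ i j l p, H i j → H j l → H l p → H p i → i = l ∨ j = p) →
    IsEmpty (SimpleGraph.cycleGraph 4 ↪g G)

/-- C4. Uses CHN, GIR, GLU with `A i x j y := E i x j y ∨ E j y i x`, `H := Hr`,
`ι u = u / 2^W`, `ξ u = u % 2^W`. For the nestedness note that for given `i`, `j` at most one of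
`Cyc i j`, `Cyc j i`, `Pl i j ∨ Mi i j`, `Pl j i ∨ Mi j i` holds (look at `kc`). -/
def C4Stmt : Prop := ∀ D : Dat, D.Ok → IsEmpty (SimpleGraph.cycleGraph 4 ↪g D.gr)

/-- IND. The vertices `u` with the same `u / 2^W` form a clique, so an independent set of size `k` has
exactly one vertex in each of the `k` classes; since `k ≥ 2` it has no bad vertex. `f i = u % 2^W`.
Conversely `{i * 2^W + f i}`. -/
def IndStmt : Prop :=
  ∀ D : Dat, D.Ok → ((∃ s : Finset (Fin (D.k * 2 ^ D.W)), s.card = D.k ∧
    D.gr.IsIndepSet (s : Set (Fin (D.k * 2 ^ D.W)))) ↔ ∃ f, D.Cons f)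

/-- NUM. A number with given bits. -/
def NumStmt : Prop :=
  ∀ (W : ℕ) (b : ℕ → Bool), ∃ x < 2 ^ W, ∀ t < W, x.testBit (W - 1 - t) = b t

/-- RR (round robin). The sources of links from `p` to `p'` are numbered `0, 1, 2, …` by `cnt`, and
the relay is this number modulo `kp`. -/
def RrStmt : Prop :=
  ∀ D : Dat, D.Ok → ∀ p p' r, cn (fun s => ∃ t < 3 * D.m, D.Lk s t ∧ D.grp s = p ∧
    D.grp t = p' ∧ D.rt s t = r) (3 * D.m) ≤ cn (D.Src p p') (3 * D.m) / D.kp + 1

/-- SRC. Numbers of slots and links: (1) each group has at most `m / kp + 1` clauses; (2) every slot is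
the source of at most one link (`Lk s t`, `Lk s t'` imply `t = t'`); (3) and the target of at most one
(`Lk s t`, `Lk s' t` imply `s = s'`). -/
def SrcStmt : Prop :=
  ∀ D : Dat, D.Ok → (∀ p, cn (fun s => D.grp s = p) (3 * D.m) ≤ 3 * (D.m / D.kp + 1)) ∧
    (∀ p, ∑ p' ∈ Finset.range D.kp, cn (D.Src p p') (3 * D.m) ≤ 3 * (D.m / D.kp + 1)) ∧
    (∀ p', ∑ p ∈ Finset.range D.kp, cn (D.Src p p') (3 * D.m) ≤ 3 * (D.m / D.kp + 1)) ∧
    ∑ p ∈ Finset.range D.kp, ∑ p' ∈ Finset.range D.kp, cn (D.Src p p') (3 * D.m) ≤ 3 * D.m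

/-- CPT. A group has at most `3 (m / kp + 1)` slots (SRC (1)), so at most as many variables. -/
def CptStmt : Prop := ∀ D : Dat, D.Ok → ∀ p, cn (D.VP p) D.n ≤ 3 * (D.m / D.kp + 1)

/-- CRL. The number of variables of a relay is at most the number of links through it, at most
`∑ (p, p'), (e(p,p') / kp + 1) ≤ 3m/kp + kp² ≤ W` with `e(p,p') = cn (Src p p') (3m)`. -/
def CrlStmt : Prop := ∀ D : Dat, D.Ok → ∀ r, cn (D.VR r) D.n ≤ D.W

/-- CLN. For fixed `(a, b)` there are at most `h` groups `p < kp` with `OnP a b p` and at most `h`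
relays `r < kp` with `OnR a b r` (one for each column). The number of links from `p` through `r` is at
most `∑ p', (e(p,p') / kp + 1) ≤ 3 (m/kp + 1) / kp + kp`, the same for the links to `p` through `r`.
Total at most `2 h² (3 (m/kp+1) / kp + kp) ≤ 3 (m/kp+1) + kp² = W` since `2 h² ≤ kp`. -/
def ClnStmt : Prop := ∀ D : Dat, D.Ok → ∀ a b, cn (D.VL a b) D.n ≤ D.W

/-- CRD. By CPT, CRL, CLN. -/
def CrdStmt : Prop := ∀ D : Dat, D.Ok → ∀ i, cn (D.VS i) D.n ≤ D.W

/-- CMP. Let `σ` satisfy the formula. For a clique `i` let `x` (NUM) have the bits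
`b t = σ (the v with VS i v, v < n, rk i v = t)`; `rk i` is injective on the variables of `i` and
smaller than `W` there (CRD). Choose `x` as a function of `(kc i / 5, i % q²)` only, so that it is
constant on 5-cycles (`VS i` depends only on `kc i / 5` and `i % q²` for `kc i < 10`). Then
`bt x (rk i v) = σ v` for all variables of `i`. No conflict, no violated clause. -/
def CmpStmt : Prop := ∀ D : Dat, D.Ok → D.Sat → ∃ f, D.Cons f

/-- INC. A group and a relay have different columns `p / q < h ≤ h + r / q < 2h < q`, so they are on a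
common line: `a = (y - y') / (x - x')`, `b = y - a x` in `ZMod q`. -/
def IncStmt : Prop :=
  ∀ D : Dat, D.Ok → ∀ p < D.kp, ∀ r < D.kp, ∃ a < D.q, ∃ b < D.q, D.OnP a b p ∧ D.OnR a b r

/-- CPY. The five copies of a point or line have the same vertex: `¬ (Cyc i j ∧ y < x)` gives
`f i ≤ f j` along the 5-cycle. -/
def CpyStmt : Prop :=
  ∀ D : Dat, D.Ok → ∀ f, D.Cons f → ∀ i < 10 * D.q ^ 2, ∀ j < 10 * D.q ^ 2,
    i % D.q ^ 2 = j % D.q ^ 2 → D.kc i / 5 = D.kc j / 5 → f i = f j

/-- SND. By EQB, INC, CPY. For a group `p < kp` let `P c = c q² + p` (copy `c`), for a relay `r` let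
`R c = c q² + h q + r`, for a line `(a,b)` let `L c = (5 + c) q² + a q + b`. For a line through `p`:
no conflict `Pl (P 0) (L 0)` and `Mi (L 2) (P 2)`, so by CPY and EQB the vertices of `p` and of the
line agree on common variables; same for relays. For a link `s → t` with `v = vr s`: `v` is a variable
of the group `p` of `s`, of the line through `p` and the relay `r`, of `r`, of the line through `r` and
the group `p'` of `t`, and of `p'`; so the value of `v` in the vertex of `p` and of `p'` is the same.
Any two slots with the same variable are joined by a chain of links (induction), so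
`σ v := ` value of `v` in the vertex of the group of any slot with variable `v` is well defined, and
satisfies every clause since no vertex is bad. -/
def SndStmt : Prop := ∀ D : Dat, D.Ok → (∃ f, D.Cons f) → D.Sat

/-- RED. Everything together (C4, IND, CMP, SND). -/
def RedStmt : Prop :=
  ∀ D : Dat, D.Ok → IsEmpty (SimpleGraph.cycleGraph 4 ↪g D.gr) ∧
    ((∃ s : Finset (Fin (D.k * 2 ^ D.W)), s.card = D.k ∧
      D.gr.IsIndepSet (s : Set (Fin (D.k * 2 ^ D.W)))) ↔ D.Sat)

theorem red (h1 : C4Stmt) (h2 : IndStmt) (h3 : CmpStmt) (h4 : SndStmt) : RedStmt :=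
  fun D hD => ⟨h1 D hD, (h2 D hD).trans ⟨h4 D hD, h3 D hD⟩⟩

end Pool.Agent.C4F
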